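import Pool.Agent.H378R2.QG.Defs
import Pool.Agent.Helper919.Char

set_option autoImplicit false
set_option linter.unusedVariables false

/-! # Project QG, task QM: the large sieve for one block -/

namespace Pool.Agent.H378R2.QG

open Finset
open Pool.Agent.Helper919 (XX)

namespace QMx

theorem XX_mul_left (a b : ℤ) (n : ℕ) : XX a n * XX b n = XX (a * b) n := by
  rw [Pool.Agent.Helper919.XX_apply, Pool.Agent.Helper919.XX_apply,
    Pool.Agent.Helper919.XX_apply]
  by_cases h : Odd n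
  · rw [if_pos h, if_pos h, if_pos h, jacobiSym.mul_left]
    push_cast
    ring
  · rw [if_neg h, if_neg h, if_neg h]
    ring

/-- Abel summation -/
theorem abel (f : ℕ → ℝ) (B : ℝ) (hB : ∀ N, |∑ d ∈ Ioc 0 N, f d| ≤ B) (U : ℕ) (k : ℕ) :
    |∑ n ∈ Ioc U (U + k), f n / n - (∑ d ∈ Ioc 0 (U + k), f d) / ((U + k : ℕ) + 1)
      + (∑ d ∈ Ioc 0 U, f d) / ((U : ℕ) + 1)| ≤ B * (1 / ((U : ℕ) + 1) - 1 / ((U + k : ℕ) + 1)) := by
  induction k with
  | zero => simp
  | succ k ih =>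
    have h1 : Ioc U (U + (k + 1)) = insert (U + k + 1) (Ioc U (U + k)) := by
      ext x
      simp only [mem_Ioc, mem_insert]
      omega
    have h2 : ∑ d ∈ Ioc 0 (U + (k + 1)), f d = ∑ d ∈ Ioc 0 (U + k), f d + f (U + k + 1) := by
      have : Ioc 0 (U + (k + 1)) = insert (U + k + 1) (Ioc 0 (U + k)) := by
        ext x
        simp only [mem_Ioc, mem_insert]
        omega
      rw [this, sum_insert (by simp), add_comm]
    rw [h1, sum_insert (by simp)]
    have h3 : |∑ d ∈ Ioc 0 (U + (k + 1)), f d| ≤ B := hB _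
    set F := ∑ d ∈ Ioc 0 (U + k), f d with hF
    set F' := ∑ d ∈ Ioc 0 (U + (k + 1)), f d with hF'
    have h4 : f (U + k + 1) = F' - F := by rw [h2]; ring
    set W := ∑ n ∈ Ioc U (U + k), f n / n with hW
    set G := ∑ d ∈ Ioc 0 U, f d with hG
    rw [h4]
    have hpos : (0 : ℝ) < ((U + k : ℕ) : ℝ) + 1 := by positivity
    have hpos2 : (0 : ℝ) < ((U + k : ℕ) : ℝ) + 2 := by positivity
    have e1 : ((U + k + 1 : ℕ) : ℝ) = ((U + k : ℕ) : ℝ) + 1 := by push_cast; ring
    have e2 : ((U + (k + 1) : ℕ) : ℝ) + 1 = ((U + k : ℕ) : ℝ) + 2 := by push_cast; ring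
    rw [e1, e2]
    set t : ℝ := ((U + k : ℕ) : ℝ) with ht
    have e3 : (F' - F) / (t + 1) + W - F' / (t + 2) + G / ((U : ℕ) + 1)
        = (W - F / (t + 1) + G / ((U : ℕ) + 1)) + F' * (1 / (t + 1) - 1 / (t + 2)) := by
      field_simp
      ring
    rw [e3]
    have e4 : 0 ≤ 1 / (t + 1) - 1 / (t + 2) := by
      rw [sub_nonneg]
      apply one_div_le_one_div_of_le hpos
      linarith
    calc |(W - F / (t + 1) + G / ((U : ℕ) + 1)) + F' * (1 / (t + 1) - 1 / (t + 2))|
        ≤ |W - F / (t + 1) + G / ((U : ℕ) + 1)| + |F' * (1 / (t + 1) - 1 / (t + 2))| :=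
          abs_add_le _ _
      _ ≤ B * (1 / ((U : ℕ) + 1) - 1 / (t + 1)) + B * (1 / (t + 1) - 1 / (t + 2)) := by
          apply add_le_add ih
          rw [abs_mul, abs_of_nonneg e4]
          exact mul_le_mul_of_nonneg_right h3 e4
      _ = B * (1 / ((U : ℕ) + 1) - 1 / (t + 2)) := by ring

theorem abel' (f : ℕ → ℝ) (B : ℝ) (hB : ∀ N, |∑ d ∈ Ioc 0 N, f d| ≤ B) (U V : ℕ) (hU : 1 ≤ U)
    (hUV : U ≤ V) : ∑ n ∈ Ioc U V, f n / n ≤ 2 * B / U := by
  obtain ⟨k, rfl⟩ := Nat.exists_eq_add_of_le hUV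
  have h := abel f B hB U k
  have hB0 : 0 ≤ B := (abs_nonneg _).trans (hB 0)
  set F := ∑ d ∈ Ioc 0 (U + k), f d with hF
  set G := ∑ d ∈ Ioc 0 U, f d with hG
  have hFB : F ≤ B := (le_abs_self _).trans (hB _)
  have hGB : -B ≤ G := (abs_le.1 (hB _)).1
  have h1 := (abs_le.1 h).2
  set t : ℝ := ((U + k : ℕ) : ℝ) with ht
  have htp : 0 < t + 1 := by positivity
  have hUp : (0 : ℝ) < (U : ℝ) + 1 := by positivity
  have hU0 : (0 : ℝ) < U := by exact_mod_cast hU
  have h2 : F / (t + 1) ≤ B / (t + 1) := by gcongr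
  have h3 : -B / ((U : ℝ) + 1) ≤ G / ((U : ℝ) + 1) := by gcongr
  have h4 : 2 * B / ((U : ℝ) + 1) ≤ 2 * B / U := by
    apply div_le_div_of_nonneg_left (by positivity) hU0
    linarith
  have h5 : B * (1 / ((U : ℝ) + 1) - 1 / (t + 1)) = B / ((U : ℝ) + 1) - B / (t + 1) := by ring
  have h6 : 2 * B / ((U : ℝ) + 1) = B / ((U : ℝ) + 1) + B / ((U : ℝ) + 1) := by ring
  have h7 : -B / ((U : ℝ) + 1) = - (B / ((U : ℝ) + 1)) := by ring
  linarith

theorem harm (V : ℕ) (hV : 1 ≤ V) (U : ℕ) : ∑ n ∈ Ioc U V, (1 : ℝ) / n ≤ 1 + Real.log V := by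
  have h1 := harmonic_le_one_add_log V
  have h2 : ((harmonic V : ℚ) : ℝ) = ∑ n ∈ Ioc 0 V, (1 : ℝ) / n := by
    rw [harmonic_eq_sum_Icc]
    push_cast
    apply sum_congr
    · ext x; simp only [mem_Icc, mem_Ioc]; omega
    · intro x _; rw [one_div]
  rw [h2] at h1
  refine le_trans ?_ h1
  apply sum_le_sum_of_subset_of_nonneg
  · intro x hx
    simp only [mem_Ioc] at hx ⊢
    omega
  · intro x _ _
    positivity

open Classical in
/-- the number of `b` with `a * b` a square -/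
theorem count_sq (H : ℕ) (a : ℤ) (ha : a ≠ 0) (S : Finset ℤ)
    (hS : ∀ b ∈ S, b ≠ 0 ∧ |b| ≤ H) :
    ((S.filter (fun b => IsSquare (a * b))).card : ℝ) ≤ Real.sqrt H + 1 := by
  obtain ⟨d, s, hds, hd⟩ := Nat.sq_mul_squarefree a.natAbs
  have hsub : S.filter (fun b => IsSquare (a * b)) ⊆
      (range (Nat.sqrt H + 1)).image (fun m : ℕ => a.sign * ((d * m ^ 2 : ℕ) : ℤ)) := by
    intro b hb
    rw [mem_filter] at hb
    obtain ⟨hbS, c, hc⟩ := hb
    obtain ⟨hb0, hbH⟩ := hS b hbS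
    have ha' : 0 < a.natAbs := Int.natAbs_pos.2 ha
    have hs0 : 0 < s := by
      rcases Nat.eq_zero_or_pos s with h | h
      · rw [h] at hds; simp at hds; omega
      · exact h
    have hab : 0 < a * b := by
      rcases lt_trichotomy 0 (a * b) with h | h | h
      · exact h
      · exfalso
        rcases mul_eq_zero.1 h.symm with h | h
        · exact ha h
        · exact hb0 h
      · exfalso
        rw [hc] at h
        nlinarith [mul_self_nonneg c]
    have h1 : a.natAbs * b.natAbs = c.natAbs ^ 2 := by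
      rw [← Int.natAbs_mul, hc, Int.natAbs_mul, sq]
    have h2 : s ^ 2 ∣ c.natAbs ^ 2 := by
      rw [← h1, ← hds]
      exact ⟨d * b.natAbs, by ring⟩
    have h3 : s ∣ c.natAbs := (Nat.pow_dvd_pow_iff two_ne_zero).1 h2
    obtain ⟨c', hc'⟩ := h3
    have h4 : d * b.natAbs = c' ^ 2 := by
      have : s ^ 2 * (d * b.natAbs) = s ^ 2 * c' ^ 2 := by
        calc s ^ 2 * (d * b.natAbs) = (s ^ 2 * d) * b.natAbs := by ring
          _ = c.natAbs ^ 2 := by rw [hds, h1]
          _ = s ^ 2 * c' ^ 2 := by rw [hc']; ring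
      exact Nat.eq_of_mul_eq_mul_left (by positivity) this
    have h5 : d ∣ c' := by
      have h6 : d ∣ c' ^ 2 := ⟨b.natAbs, h4.symm⟩
      exact (hd.dvd_pow_iff_dvd two_ne_zero).1 h6
    obtain ⟨m, hm⟩ := h5
    have hd0 : 0 < d := Nat.pos_of_ne_zero (fun h => by rw [h] at hd; exact not_squarefree_zero hd)
    have h6 : b.natAbs = d * m ^ 2 := by
      have : d * b.natAbs = d * (d * m ^ 2) := by rw [h4, hm]; ring
      exact Nat.eq_of_mul_eq_mul_left hd0 this
    rw [mem_image]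
    refine ⟨m, ?_, ?_⟩
    · rw [mem_range, Nat.lt_succ_iff, Nat.le_sqrt']
      have h7 : b.natAbs ≤ H := by
        have : ((b.natAbs : ℕ) : ℤ) ≤ H := by rw [Int.natCast_natAbs]; exact hbH
        exact_mod_cast this
      rw [h6] at h7
      calc m ^ 2 = 1 * m ^ 2 := (one_mul _).symm
        _ ≤ d * m ^ 2 := Nat.mul_le_mul_right _ hd0
        _ ≤ H := h7
    · change a.sign * ((d * m ^ 2 : ℕ) : ℤ) = b
      rw [← h6]
      have h8 : a.sign = b.sign := by
        rcases lt_or_gt_of_ne ha with h | h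
        · have : b < 0 := by
            by_contra hcon
            have : 0 ≤ b := not_lt.1 hcon
            nlinarith
          rw [Int.sign_eq_neg_one_of_neg h, Int.sign_eq_neg_one_of_neg this]
        · have : 0 < b := by
            by_contra hcon
            have : b ≤ 0 := not_lt.1 hcon
            nlinarith
          rw [Int.sign_eq_one_of_pos h, Int.sign_eq_one_of_pos this]
      rw [h8]
      exact Int.sign_mul_natAbs b
  have h1 := (card_le_card hsub).trans card_image_le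
  rw [card_range] at h1
  calc ((S.filter (fun b => IsSquare (a * b))).card : ℝ) ≤ ((Nat.sqrt H + 1 : ℕ) : ℝ) := by
        exact_mod_cast h1
    _ = (Nat.sqrt H : ℝ) + 1 := by push_cast; ring
    _ ≤ Real.sqrt H + 1 := by
        gcongr
        exact Real.nat_sqrt_le_real_sqrt

end QMx

/-- QM: large sieve for one block -/
theorem block_sieve (H U V : ℕ) (hH : 1 ≤ H) (hU : 2 ≤ U) (hUV : U ≤ V) (δ : ℝ) (hδ : 0 < δ)
    (hUH : 64 * (H : ℝ) ^ 2 * (1 + Real.log V) ≤ δ ^ 2 * U) (S : Finset ℤ)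
    (hS : ∀ a ∈ S, a ≠ 0 ∧ |a| ≤ H ∧
      ∑ p ∈ (Ioc U V).filter (fun p : ℕ => p.Prime), XX a p / p ≤ -δ) :
    (S.card : ℝ) ≤ 8 * (Real.sqrt H + 1) * (1 + Real.log V) ^ 2 / δ ^ 2 := by
  classical
  set l : ℝ := 1 + Real.log V with hl
  have hV1 : 1 ≤ V := by omega
  have hl1 : 1 ≤ l := by
    have : 0 ≤ Real.log V := Real.log_natCast_nonneg V
    linarith
  have hU0 : (0 : ℝ) < U := by exact_mod_cast (by omega : 0 < U)
  set P := (Ioc U V).filter (fun p : ℕ => p.Prime) with hP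
  set c : ℕ → ℝ := fun n => ∑ a ∈ S, XX a n with hc
  set s : ℝ := (S.card : ℝ) with hs
  have hs0 : 0 ≤ s := by positivity
  -- first moment
  have h1 : δ * s ≤ ∑ p ∈ P, |c p| / p := by
    have e1 : ∑ a ∈ S, (∑ p ∈ P, XX a p / p) ≤ ∑ a ∈ S, (-δ) := sum_le_sum fun a ha => (hS a ha).2.2
    rw [sum_const, nsmul_eq_mul, sum_comm] at e1
    have e2 : ∀ p ∈ P, -(|c p| / p) ≤ ∑ a ∈ S, XX a p / (p : ℝ) := by
      intro p hp
      rw [← sum_div, ← neg_div]
      apply div_le_div_of_nonneg_right _ (by positivity)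
      exact neg_abs_le _
    have e3 := sum_le_sum e2
    rw [sum_neg_distrib] at e3
    linarith
  -- Cauchy-Schwarz
  have h2 : (∑ p ∈ P, |c p| / p) ^ 2 ≤ l * ∑ n ∈ Ioc U V, (c n) ^ 2 / n := by
    have e1 : (∑ p ∈ P, |c p| / p) ^ 2 ≤ (∑ p ∈ P, (1 : ℝ) / p) * ∑ p ∈ P, (c p) ^ 2 / p := by
      apply sum_sq_le_sum_mul_sum_of_sq_eq_mul
      · intro i _; positivity
      · intro i _; positivity
      · intro i _
        rw [div_pow, sq_abs]
        ring
    have e2 : ∑ p ∈ P, (1 : ℝ) / p ≤ l := by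
      refine le_trans ?_ (QMx.harm V hV1 U)
      apply sum_le_sum_of_subset_of_nonneg (filter_subset _ _)
      intro i _ _; positivity
    have e3 : ∑ p ∈ P, (c p) ^ 2 / (p : ℝ) ≤ ∑ n ∈ Ioc U V, (c n) ^ 2 / n := by
      apply sum_le_sum_of_subset_of_nonneg (filter_subset _ _)
      intro i _ _; positivity
    refine e1.trans (mul_le_mul e2 e3 ?_ (by linarith))
    exact sum_nonneg fun i _ => by positivity
  -- expand
  have h3 : ∑ n ∈ Ioc U V, (c n) ^ 2 / (n : ℝ)
      = ∑ a ∈ S, ∑ b ∈ S, ∑ n ∈ Ioc U V, XX (a * b) n / n := by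
    have e1 : ∀ n : ℕ, (c n) ^ 2 / (n : ℝ) = ∑ a ∈ S, ∑ b ∈ S, XX (a * b) n / n := by
      intro n
      rw [sq, hc]
      simp only
      rw [sum_mul_sum, sum_div]
      apply sum_congr rfl
      intro a _
      rw [sum_div]
      apply sum_congr rfl
      intro b _
      rw [QMx.XX_mul_left]
    simp_rw [e1]
    rw [sum_comm]
    apply sum_congr rfl
    intro a _
    rw [sum_comm]
  have h4 : ∀ a ∈ S, ∑ b ∈ S, ∑ n ∈ Ioc U V, XX (a * b) n / (n : ℝ)
      ≤ (Real.sqrt H + 1) * l + s * (8 * (H : ℝ) ^ 2 / U) := by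
    intro a ha
    have e1 : ∀ b ∈ S, ∑ n ∈ Ioc U V, XX (a * b) n / (n : ℝ)
        ≤ (if IsSquare (a * b) then l else 0) + 8 * (H : ℝ) ^ 2 / U := by
      intro b hb
      split_ifs with hsq
      · have f1 : ∑ n ∈ Ioc U V, XX (a * b) n / (n : ℝ) ≤ l := by
          refine le_trans ?_ (QMx.harm V hV1 U)
          apply sum_le_sum
          intro n _
          apply div_le_div_of_nonneg_right _ (by positivity)
          exact (le_abs_self _).trans (Pool.Agent.Helper919.XX_abs_le _ _)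
        have f2 : (0 : ℝ) ≤ 8 * (H : ℝ) ^ 2 / U := by positivity
        linarith
      · rw [zero_add]
        have hab : a * b ≠ 0 := mul_ne_zero (hS a ha).1 (hS b hb).1
        have hbd : (((a * b).natAbs : ℕ) : ℝ) ≤ (H : ℝ) ^ 2 := by
          have g1 : (((a * b).natAbs : ℕ) : ℝ) = |(a : ℝ)| * |(b : ℝ)| := by
            rw [Nat.cast_natAbs]
            push_cast
            rw [abs_mul]
          have g2 : |(a : ℝ)| ≤ H := by exact_mod_cast (hS a ha).2.1
          have g3 : |(b : ℝ)| ≤ H := by exact_mod_cast (hS b hb).2.1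
          rw [g1, sq]
          exact mul_le_mul g2 g3 (abs_nonneg _) (by positivity)
        have f1 := QMx.abel' (fun n => XX (a * b) n) (4 * (H : ℝ) ^ 2)
          (fun N => (Pool.Agent.Helper919.XX_sum_bound (a * b) hab hsq N).trans (by linarith))
          U V (by omega) hUV
        refine f1.trans (le_of_eq ?_)
        ring
    refine (sum_le_sum e1).trans ?_
    rw [sum_add_distrib, sum_const, nsmul_eq_mul, ← sum_filter, sum_const, nsmul_eq_mul]
    have e2 := QMx.count_sq H a (hS a ha).1 S (fun b hb => ⟨(hS b hb).1, (hS b hb).2.1⟩)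
    have e3 := mul_le_mul_of_nonneg_right e2 (by linarith : (0 : ℝ) ≤ l)
    linarith
  have h5 : ∑ n ∈ Ioc U V, (c n) ^ 2 / (n : ℝ)
      ≤ s * ((Real.sqrt H + 1) * l + s * (8 * (H : ℝ) ^ 2 / U)) := by
    rw [h3]
    refine (sum_le_sum h4).trans ?_
    rw [sum_const, nsmul_eq_mul]
  have h6 : (δ * s) ^ 2 ≤ l * (s * ((Real.sqrt H + 1) * l + s * (8 * (H : ℝ) ^ 2 / U))) := by
    have e1 : (δ * s) ^ 2 ≤ (∑ p ∈ P, |c p| / p) ^ 2 := pow_le_pow_left₀ (by positivity) h1 2
    exact e1.trans (h2.trans (mul_le_mul_of_nonneg_left h5 (by linarith)))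
  have h7 : l * (8 * (H : ℝ) ^ 2 / U) ≤ δ ^ 2 / 8 := by
    rw [← mul_div_assoc, div_le_iff₀ hU0]
    nlinarith
  rcases eq_or_lt_of_le hs0 with h0 | h0
  · rw [← h0]
    positivity
  · have h8 : δ ^ 2 * s ≤ (Real.sqrt H + 1) * l ^ 2 + δ ^ 2 / 8 * s := by
      have e1 : s * (δ ^ 2 * s) ≤ s * ((Real.sqrt H + 1) * l ^ 2 + (l * (8 * (H : ℝ) ^ 2 / U)) * s) := by
        nlinarith [h6]
      have e2 := le_of_mul_le_mul_left e1 h0
      have e3 := mul_le_mul_of_nonneg_right h7 hs0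
      linarith
    rw [le_div_iff₀ (by positivity)]
    have h9 : 0 ≤ (Real.sqrt H + 1) * l ^ 2 := by positivity
    nlinarith

end Pool.Agent.H378R2.QG
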