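import Pool.Agent.H378R2.QG.Defs
import Pool.Agent.H256R2.SC.H2

set_option autoImplicit false
set_option linter.unusedSectionVars false

/-! # Project QG, task QH: levels of `VV`, transfer to the actual set (after helper238) -/

namespace Pool.Agent.H378R2.QG

open Finset
open Pool.Agent.H256R2.SC (Col fib er ins free supp avoid qq SS ind Lv Asum al nu1 ind_eq_prod)

variable {n : ℕ} {κ : Type} [Fintype κ] [DecidableEq κ]

namespace QHx

theorem sum_wt_ind1 (g : κ → ℝ) (a : Option κ) :
    ∑ c, wt g c * (if a ≠ none → c = a then (1 : ℝ) else 0) = nug g a := by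
  cases a with
  | none =>
    simp [Fintype.sum_option, wt, nug]
  | some k =>
    simp [Fintype.sum_option, wt, nug]

theorem EE_ind (g : Fin n → κ → ℝ) (D : Col n κ) : EE g (fun x => ind D x) = nu g D := by
  unfold EE nu
  have h1 : ∀ x : Col n κ, (∏ i, wt (g i) (x i)) * ind D x =
      ∏ i, (wt (g i) (x i) * (if D i ≠ none → x i = D i then (1 : ℝ) else 0)) := by
    intro x
    rw [ind_eq_prod, Finset.prod_mul_distrib]
  rw [Finset.sum_congr rfl (fun x _ => h1 x)]
  have h2 := Finset.prod_univ_sum (fun _ : Fin n => (Finset.univ : Finset (Option κ)))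
    (fun i c => wt (g i) c * (if D i ≠ none → c = D i then (1 : ℝ) else 0))
  rw [Fintype.piFinset_univ] at h2
  rw [← h2]
  apply Finset.prod_congr rfl
  intro i _
  exact sum_wt_ind1 (g i) (D i)

end QHx

open QHx in
theorem transfer {α : Type} [DecidableEq α] (𝒜 : Finset α) (col : α → Col n κ) (p : Fin n → ℝ)
    (g : Fin n → κ → ℝ) (N Err Q B : ℝ) (hErr : 0 ≤ Err)
    (hcnt : ∀ D : Col n κ, qq p D ≤ Q →
      |((𝒜.filter (fun a => ∀ i, D i ≠ none → col a i = D i)).card : ℝ) - N * nu g D| ≤ Err)
    (F : Col n κ → ℝ) (hF : Lv p Q B F) :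
    |∑ a ∈ 𝒜, F (col a) - N * EE g F| ≤ Err * B := by
  obtain ⟨f, hf1, hf2, hf3⟩ := hF
  have h1 : ∑ a ∈ 𝒜, F (col a) =
      ∑ D, f D * ((𝒜.filter (fun a => ∀ i, D i ≠ none → col a i = D i)).card : ℝ) := by
    simp_rw [hf1]
    rw [Finset.sum_comm]
    apply Finset.sum_congr rfl
    intro D _
    rw [← Finset.mul_sum]
    congr 1
    unfold ind
    rw [Finset.sum_ite, Finset.sum_const_zero, add_zero, Finset.sum_const, nsmul_eq_mul, mul_one]
  have h2 : EE g F = ∑ D, f D * nu g D := by
    have h3 : EE g F = ∑ D, f D * EE g (fun x => ind D x) := by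
      unfold EE
      simp_rw [hf1, Finset.mul_sum]
      rw [Finset.sum_comm]
      apply Finset.sum_congr rfl
      intro D _
      apply Finset.sum_congr rfl
      intro x _
      ring
    rw [h3]
    apply Finset.sum_congr rfl
    intro D _
    rw [EE_ind]
  rw [h1, h2, Finset.mul_sum, ← Finset.sum_sub_distrib]
  calc |∑ D, (f D * ((𝒜.filter (fun a => ∀ i, D i ≠ none → col a i = D i)).card : ℝ) -
        N * (f D * nu g D))|
      ≤ ∑ D, |f D * ((𝒜.filter (fun a => ∀ i, D i ≠ none → col a i = D i)).card : ℝ) -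
        N * (f D * nu g D)| := Finset.abs_sum_le_sum_abs _ _
    _ ≤ ∑ D, |f D| * Err := by
        apply Finset.sum_le_sum
        intro D _
        have h4 : f D * ((𝒜.filter (fun a => ∀ i, D i ≠ none → col a i = D i)).card : ℝ) -
            N * (f D * nu g D) =
            f D * (((𝒜.filter (fun a => ∀ i, D i ≠ none → col a i = D i)).card : ℝ) -
              N * nu g D) := by ring
        rw [h4, abs_mul]
        by_cases hD : f D = 0
        · simp [hD]
        · exact mul_le_mul_of_nonneg_left (hcnt D (hf3 D hD)) (abs_nonneg _)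
    _ = (∑ D, |f D|) * Err := by rw [Finset.sum_mul]
    _ ≤ B * Err := mul_le_mul_of_nonneg_right hf2 hErr
    _ = Err * B := mul_comm _ _

namespace QHx

/-- coefficients of `psi1` in the local elementary events -/
noncomputable def cf (g : κ → ℝ) (a b : Option κ) : ℝ :=
  match a with
  | none => if b = none then 1 else 0
  | some k => if b = some k then 1 else if b = none then -(g k) else 0

theorem psi1_eq (g : κ → ℝ) (a c : Option κ) :
    psi1 g a c = ∑ b, cf g a b * (if b ≠ none → c = b then (1 : ℝ) else 0) := by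
  cases a with
  | none =>
    simp [psi1, cf, Fintype.sum_option]
  | some k =>
    simp only [psi1, cf, Fintype.sum_option]
    rw [Finset.sum_eq_single k]
    · simp
      ring
    · intro b _ hb
      simp [hb]
    · intro h
      exact absurd (Finset.mem_univ k) h

theorem sum_abs_cf (g : κ → ℝ) (hg0 : ∀ k, 0 ≤ g k) (hg1 : ∀ k, g k ≤ 1) (a : Option κ) :
    ∑ b, |cf g a b| ≤ (if a ≠ none then 2 else 1) := by
  cases a with
  | none =>
    simp [cf, Fintype.sum_option]
  | some k =>
    simp only [cf, Fintype.sum_option]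
    have h1 : ∑ x : κ, |(if (some x : Option κ) = some k then (1 : ℝ) else
        if (some x : Option κ) = none then -(g k) else 0)| = 1 := by
      rw [Finset.sum_eq_single k]
      · simp
      · intro b _ hb
        simp [hb]
      · intro h
        exact absurd (Finset.mem_univ k) h
    rw [h1]
    have h2 := hg0 k
    have h3 := hg1 k
    simp [abs_of_nonneg h2]
    linarith

theorem psi_eq (g : Fin n → κ → ℝ) (D x : Col n κ) :
    psi g D x = ∑ E : Col n κ, (∏ i, cf (g i) (D i) (E i)) * ind E x := by
  unfold psi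
  have h1 : ∀ i, psi1 (g i) (D i) (x i) =
      ∑ b, cf (g i) (D i) b * (if b ≠ none → x i = b then (1 : ℝ) else 0) :=
    fun i => psi1_eq (g i) (D i) (x i)
  rw [Finset.prod_congr rfl (fun i _ => h1 i)]
  rw [Finset.prod_univ_sum, Fintype.piFinset_univ]
  apply Finset.sum_congr rfl
  intro E _
  rw [ind_eq_prod, Finset.prod_mul_distrib]

theorem sum_abs_prod_cf (g : Fin n → κ → ℝ) (hg0 : ∀ i k, 0 ≤ g i k) (hg1 : ∀ i k, g i k ≤ 1)
    (D : Col n κ) :
    ∑ E : Col n κ, |∏ i, cf (g i) (D i) (E i)| ≤
      2 ^ (univ.filter (fun i => D i ≠ none)).card := by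
  have h1 : ∑ E : Col n κ, |∏ i, cf (g i) (D i) (E i)| =
      ∏ i, ∑ b, |cf (g i) (D i) b| := by
    rw [Finset.prod_univ_sum, Fintype.piFinset_univ]
    apply Finset.sum_congr rfl
    intro E _
    rw [Finset.abs_prod]
  rw [h1]
  calc ∏ i, ∑ b, |cf (g i) (D i) b|
      ≤ ∏ i, (if D i ≠ none then (2 : ℝ) else 1) := by
        apply Finset.prod_le_prod
        · intro i _
          exact Finset.sum_nonneg (fun b _ => abs_nonneg _)
        · intro i _
          exact sum_abs_cf (g i) (hg0 i) (hg1 i) (D i)
    _ = 2 ^ (univ.filter (fun i => D i ≠ none)).card := by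
        rw [Finset.prod_ite, Finset.prod_const_one, mul_one, Finset.prod_const]

theorem nu1_ge_one (p : ℝ) (hp : 1 ≤ p) (a : Option κ) : 1 ≤ nu1 p a := by
  cases a with
  | none => simp [nu1]
  | some k => simpa [nu1] using hp

end QHx

open QHx in
theorem Lv_VV (p : Fin n → ℝ) (g : Fin n → κ → ℝ) (hp : ∀ i, 1 ≤ p i) (hg0 : ∀ i k, 0 ≤ g i k)
    (hg1 : ∀ i k, g i k ≤ 1)
    (y : Col n κ → ℝ) (hy : ∀ D, |y D| ≤ 1) (Q : ℝ) (hQ : ∀ D, y D ≠ 0 → qq p D ≤ Q) :
    Lv p Q (∑ D : Col n κ with qq p D ≤ Q, 2 ^ (univ.filter (fun i => D i ≠ none)).card)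
      (VV g y) := by
  refine ⟨fun E => ∑ D, y D * ∏ i, cf (g i) (D i) (E i), ?_, ?_, ?_⟩
  · intro x
    unfold VV
    simp_rw [psi_eq, Finset.mul_sum, Finset.sum_mul]
    rw [Finset.sum_comm]
    apply Finset.sum_congr rfl
    intro E _
    apply Finset.sum_congr rfl
    intro D _
    ring
  · calc ∑ E : Col n κ, |∑ D, y D * ∏ i, cf (g i) (D i) (E i)|
        ≤ ∑ E : Col n κ, ∑ D : Col n κ, |y D| * |∏ i, cf (g i) (D i) (E i)| := by
          apply Finset.sum_le_sum
          intro E _
          refine (Finset.abs_sum_le_sum_abs _ _).trans (le_of_eq ?_)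
          apply Finset.sum_congr rfl
          intro D _
          rw [abs_mul]
      _ = ∑ D : Col n κ, |y D| * ∑ E : Col n κ, |∏ i, cf (g i) (D i) (E i)| := by
          rw [Finset.sum_comm]
          apply Finset.sum_congr rfl
          intro D _
          rw [Finset.mul_sum]
      _ ≤ ∑ D : Col n κ, (if qq p D ≤ Q then
            (2 : ℝ) ^ (univ.filter (fun i => D i ≠ none)).card else 0) := by
          apply Finset.sum_le_sum
          intro D _
          have h1 := sum_abs_prod_cf g hg0 hg1 D
          have h0 : 0 ≤ ∑ E : Col n κ, |∏ i, cf (g i) (D i) (E i)| :=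
            Finset.sum_nonneg (fun E _ => abs_nonneg _)
          split_ifs with hD
          · calc |y D| * ∑ E : Col n κ, |∏ i, cf (g i) (D i) (E i)|
                ≤ 1 * ∑ E : Col n κ, |∏ i, cf (g i) (D i) (E i)| :=
                  mul_le_mul_of_nonneg_right (hy D) h0
              _ ≤ _ := by rw [one_mul]; exact h1
          · have h2 : y D = 0 := by
              by_contra h3
              exact hD (hQ D h3)
            rw [h2]
            simp
      _ = _ := by rw [Finset.sum_filter]
  · intro E hE
    have h1 : ∃ D, y D * ∏ i, cf (g i) (D i) (E i) ≠ 0 := by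
      by_contra h
      push Not at h
      exact hE (Finset.sum_eq_zero (fun D _ => h D))
    obtain ⟨D, hD⟩ := h1
    have h2 : y D ≠ 0 := left_ne_zero_of_mul hD
    have h3 : ∏ i, cf (g i) (D i) (E i) ≠ 0 := right_ne_zero_of_mul hD
    refine le_trans ?_ (hQ D h2)
    unfold qq
    apply Finset.prod_le_prod
    · intro i _
      exact le_trans zero_le_one (nu1_ge_one (p i) (hp i) (E i))
    · intro i _
      have h4 : cf (g i) (D i) (E i) ≠ 0 := by
        intro h5
        exact h3 (Finset.prod_eq_zero (Finset.mem_univ i) h5)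
      have h6 : E i = D i ∨ E i = none := by
        unfold cf at h4
        cases hDi : D i with
        | none =>
          rw [hDi] at h4
          by_cases h7 : E i = none
          · right; exact h7
          · simp [h7] at h4
        | some k =>
          rw [hDi] at h4
          by_cases h7 : E i = some k
          · left; exact h7
          · by_cases h8 : E i = none
            · right; exact h8
            · simp [h7, h8] at h4
      rcases h6 with h6 | h6
      · rw [h6]
      · rw [h6]
        exact nu1_ge_one (p i) (hp i) (D i)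

end Pool.Agent.H378R2.QG
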