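import Pool.Agent.H378R2.QG.Defs
import Pool.Agent.H769R2.QG.QA
import Pool.Agent.H769R2.QG.QB
import Pool.Agent.H769R2.QG.QC
import Pool.Agent.H365R2.QG.QD
import Pool.Agent.H769R2.QG.QE
import Pool.Agent.H769R2.QG.QF
import Pool.Agent.H769R2.QG.QH
import Pool.Agent.H256R2.SC.J

set_option autoImplicit false
set_option linter.unusedSectionVars false

/-! # Project QG, task QJ: the abstract covering sieve with densities depending on the colour -/

namespace Pool.Agent.H378R2.QG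

open Finset
open Pool.Agent.H256R2.SC (Col fib er ins free supp avoid qq SS ind Lv Asum al nu1 prod_nu1
  prod_ge_one_sub_sum al_abs_le SS_upper SS_lower Lv_mono Lv_const Lv_sub Lv_sum Lv_mul Lv_SS
  count_assign)

variable {n : ℕ} {κ : Type} [Fintype κ] [DecidableEq κ]

namespace QJx

lemma wt_nonneg {g : κ → ℝ} (hg : ∀ k, 0 ≤ g k) (hu : ∑ k, g k ≤ 1) (c : Option κ) :
    0 ≤ wt g c := by
  cases c with
  | none => simp only [wt]; linarith
  | some k => simpa only [wt] using hg k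

lemma EE_mono {g : Fin n → κ → ℝ} (hw : ∀ i (c : Option κ), 0 ≤ wt (g i) c) {F G : Col n κ → ℝ}
    (h : ∀ x, F x ≤ G x) : EE g F ≤ EE g G := by
  unfold EE
  apply Finset.sum_le_sum
  intro x _
  exact mul_le_mul_of_nonneg_left (h x) (Finset.prod_nonneg (fun i _ => hw i _))

lemma EE_sub (g : Fin n → κ → ℝ) (F G : Col n κ → ℝ) :
    EE g (fun x => F x - G x) = EE g F - EE g G := by
  unfold EE
  rw [← Finset.sum_sub_distrib]
  apply Finset.sum_congr rfl
  intro x _
  ring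

lemma EE_add (g : Fin n → κ → ℝ) (F G : Col n κ → ℝ) :
    EE g (fun x => F x + G x) = EE g F + EE g G := by
  unfold EE
  rw [← Finset.sum_add_distrib]
  apply Finset.sum_congr rfl
  intro x _
  ring

lemma EE_smul (g : Fin n → κ → ℝ) (c : ℝ) (F : Col n κ → ℝ) :
    EE g (fun x => c * F x) = c * EE g F := by
  unfold EE
  rw [Finset.mul_sum]
  apply Finset.sum_congr rfl
  intro x _
  ring

lemma EE_sum (g : Fin n → κ → ℝ) {ι : Type} (S : Finset ι) (F : ι → Col n κ → ℝ) :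
    EE g (fun x => ∑ j ∈ S, F j x) = ∑ j ∈ S, EE g (F j) := by
  unfold EE
  rw [Finset.sum_comm]
  apply Finset.sum_congr rfl
  intro x _
  rw [Finset.mul_sum]

lemma nu_nonneg {g : Fin n → κ → ℝ} (hg : ∀ i k, 0 ≤ g i k) (D : Col n κ) : 0 ≤ nu g D := by
  unfold nu
  refine Finset.prod_nonneg fun i _ => ?_
  cases D i with
  | none => simp [nug]
  | some l => simpa [nug] using hg i l

lemma yy_abs_le {h : κ → Finset (Fin n) → ℝ} (h0 : ∀ k s, 0 ≤ h k s) (h1 : ∀ k s, h k s ≤ 1)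
    (D : Col n κ) : |yy h D| ≤ 1 := by
  unfold yy
  rw [Finset.abs_prod]
  exact Finset.prod_le_one (fun k _ => abs_nonneg _) (fun k _ => al_abs_le (h0 k) (h1 k) _)

lemma Zs_ge_one {g : Fin n → κ → ℝ} {h : κ → Finset (Fin n) → ℝ} (hg : ∀ i k, 0 ≤ g i k) :
    1 ≤ Zs g h := by
  unfold Zs
  have h1 : (yy h (fun _ => none : Col n κ)) ^ 2 * nu g (fun _ => none : Col n κ) = 1 := by
    have e1 : yy h (fun _ => none : Col n κ) = 1 := by
      unfold yy
      apply Finset.prod_eq_one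
      intro k _
      have : fib (fun _ => none : Col n κ) k = ∅ := by
        unfold fib
        simp
      rw [this]
      simp [al]
    have e2 : nu g (fun _ => none : Col n κ) = 1 := by
      unfold nu
      apply Finset.prod_eq_one
      intro i _
      simp [nug]
    rw [e1, e2]; norm_num
  rw [← h1]
  exact Finset.single_le_sum (f := fun D : Col n κ => (yy h D) ^ 2 * nu g D)
    (fun D _ => mul_nonneg (sq_nonneg _) (nu_nonneg hg D)) (Finset.mem_univ _)

section
variable {p : Fin n → ℝ} {g : Fin n → κ → ℝ} {h : κ → Finset (Fin n) → ℝ} {z : ℝ} {K : κ → ℝ}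

/-- lower bound of the second moment -/
theorem second_lower (Q δ T : ℝ) (hg0 : ∀ i k, 0 ≤ g i k) (hz1 : 1 < z)
    (hug : ∀ i, ∑ k, g i k ≤ 1)
    (hδ : ∀ D : Col n κ, qq p D ≤ Q → ∀ k, 2 * ∑ i with D i ≠ none, g i k ≤ δ)
    (hug4 : (Fintype.card κ : ℝ) * δ ≤ 1 / 4) (hQ0 : 0 < Q)
    (hT : ∑ D : Col n κ with Q / z < qq p D, (yy h D) ^ 2 * nu g D ≤ T)
    (hT8 : T ≤ 1 / 8 * Zs g h) :
    3 / 4 * Zs g h ≤ EE g (fun x => (VV g (yT p h Q : Col n κ → ℝ) x) ^ 2) := by
  have hw : ∀ i (c : Option κ), 0 ≤ wt (g i) c := fun i c => wt_nonneg (hg0 i) (hug i) c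
  have hsum0 : ∀ i, 0 ≤ ∑ k, g i k := fun i => Finset.sum_nonneg fun k _ => hg0 i k
  have h1 := tensor_lower (κ := κ) g
    (fun i c => nug (g i) c * nu1 (1 - ∑ k, g i k) c) hw
    (by
      intro i c
      cases c with
      | none => simp [nu1, nug]
      | some k =>
        simp only [nu1, nug]
        exact mul_nonneg (hg0 i k) (by linarith [hug i]))
    (fun i Y => local_lower (g i) (hg0 i) Y) (yT p h Q)
  refine le_trans ?_ h1
  have h2 : ∀ D : Col n κ, (if qq p D ≤ Q then 7 / 8 * ((yy h D) ^ 2 * nu g D) else 0) ≤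
      (∏ i, nug (g i) (D i) * nu1 (1 - ∑ k, g i k) (D i)) *
        (yT p h Q D) ^ 2 := by
    intro D
    unfold yT
    split_ifs with hD
    · rw [Finset.prod_mul_distrib]
      have e1 : ∏ i, nu1 (1 - ∑ k, g i k) (D i) =
          ∏ i ∈ supp D, (1 - ∑ k, g i k) := prod_nu1 (fun i => 1 - ∑ k, g i k) D
      rw [e1]
      have e2 : 7 / 8 ≤ ∏ i ∈ supp D, (1 - ∑ k, g i k) := by
        refine le_trans ?_ (prod_ge_one_sub_sum (supp D) (fun i => ∑ k, g i k) hsum0 hug)
        rw [Finset.sum_comm]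
        have e4 : ∀ k, ∑ i ∈ supp D, g i k ≤ δ / 2 := by
          intro k
          have e3 := hδ D hD k
          unfold supp
          linarith
        have e5 : ∑ k, ∑ i ∈ supp D, g i k ≤ (Fintype.card κ : ℝ) * (δ / 2) := by
          refine (Finset.sum_le_sum fun k _ => e4 k).trans ?_
          rw [Finset.sum_const, Finset.card_univ, nsmul_eq_mul]
        linarith
      have e6 : 0 ≤ (yy h D) ^ 2 * nu g D := mul_nonneg (sq_nonneg _) (nu_nonneg hg0 D)
      have e7 : ∏ i, nug (g i) (D i) = nu g D := rfl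
      rw [e7]
      nlinarith
    · simp
  refine le_trans ?_ (Finset.sum_le_sum (fun D _ => h2 D))
  rw [← Finset.sum_filter, ← Finset.mul_sum]
  have h3 : Zs g h = ∑ D : Col n κ with qq p D ≤ Q, (yy h D) ^ 2 * nu g D +
      ∑ D : Col n κ with ¬ qq p D ≤ Q, (yy h D) ^ 2 * nu g D := by
    unfold Zs
    rw [Finset.sum_filter_add_sum_filter_not]
  have h4 : ∑ D : Col n κ with ¬ qq p D ≤ Q, (yy h D) ^ 2 * nu g D ≤
      ∑ D : Col n κ with Q / z < qq p D, (yy h D) ^ 2 * nu g D := by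
    apply Finset.sum_le_sum_of_subset_of_nonneg
    · intro D hD
      rw [Finset.mem_filter] at hD ⊢
      refine ⟨hD.1, lt_of_le_of_lt ?_ (not_le.mp hD.2)⟩
      exact div_le_self hQ0.le hz1.le
    · intro D _ _
      exact mul_nonneg (sq_nonneg _) (nu_nonneg hg0 D)
  have h5 := Zs_ge_one (h := h) hg0
  linarith

/-- upper bound of the sieve majorant part -/
theorem second_upper (H : ∀ k, Hyp p (fun i => g i k) (h k) z (K k)) (Q δ t T G : ℝ) (J : ℕ)
    (hJ : Even J) (ht : 0 < t) (htg : ∀ i k, 3 * t * g i k ≤ 1)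
    (hg0 : ∀ i k, 0 ≤ g i k) (hG : ∀ k, ∑ i, g i k ≤ G)
    (hug : ∀ i, ∑ k, g i k ≤ 1) (hQ0 : 0 < Q)
    (hδ : ∀ D : Col n κ, qq p D ≤ Q → ∀ k, 2 * ∑ i with D i ≠ none, g i k ≤ δ)
    (hT : ∑ D : Col n κ with Q / z < qq p D, (yy h D) ^ 2 * nu g D ≤ T) (k : κ) :
    EE g (fun x => (VV g (yT p h Q : Col n κ → ℝ) x) ^ 2 * SS J k x) ≤
      δ ^ 2 * Zs g h + T + (1 / t) ^ J * (Real.exp ((2 + 6 * t) * G) * Zs g h) := by
  have hw : ∀ i (c : Option κ), 0 ≤ wt (g i) c := fun i c => wt_nonneg (hg0 i) (hug i) c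
  have h1 : EE g (fun x => (VV g (yT p h Q : Col n κ → ℝ) x) ^ 2 * SS J k x) ≤
      EE g (fun x => (if ∀ i, x i ≠ some k then 1 else 0) *
        (VV g (yT p h Q : Col n κ → ℝ) x) ^ 2 +
        (1 / t) ^ J * ((∏ i, (if x i = some k then 1 + t else 1)) *
          (VV g (yT p h Q : Col n κ → ℝ) x) ^ 2)) := by
    apply EE_mono hw
    intro x
    have := mul_le_mul_of_nonneg_left (SS_upper J hJ t ht k x)
      (sq_nonneg (VV g (yT p h Q : Col n κ → ℝ) x))
    refine this.trans (le_of_eq ?_)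
    ring
  refine h1.trans ?_
  rw [EE_add, EE_smul]
  have h2 : EE g (fun x => (if ∀ i, x i ≠ some k then (1:ℝ) else 0) *
      (VV g (yT p h Q : Col n κ → ℝ) x) ^ 2) ≤ δ ^ 2 * Zs g h + T := by
    refine (rough_bound g hg0 hw _ k).trans ?_
    refine (red_yT H Q δ hQ0 k (fun D hD => hδ D hD k)).trans ?_
    linarith
  have hZ0 : 0 ≤ Zs g h := zero_le_one.trans (Zs_ge_one hg0)
  have h3 : EE g (fun x => (∏ i, (if x i = some k then 1 + t else 1)) *
      (VV g (yT p h Q : Col n κ → ℝ) x) ^ 2) ≤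
      Real.exp ((2 + 6 * t) * G) * Zs g h := by
    have h3' : EE g (fun x => (∏ i, (if x i = some k then 1 + t else 1)) *
        (VV g (yT p h Q : Col n κ → ℝ) x) ^ 2) ≤
        Real.exp ((2 + 6 * t) * ∑ i, g i k) * Zs g h := by
      refine le_trans ?_ (weighted_sum H t ht.le k)
      have h4 := tensor_upper (κ := κ) g (fun _ c => if c = some k then 1 + t else 1)
        (fun i c => bet (g i) t k c) hw
        (by intro i c; split_ifs <;> linarith)
        (by
          intro i c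
          cases c with
          | none =>
            simp only [bet]
            have := hg0 i k
            positivity
          | some l =>
            simp only [bet]
            have := hg0 i l
            split_ifs
            · positivity
            · exact this)
        (fun i Y => local_wt (g i) t (hg0 i) ht.le k (htg i k) Y) (yT p h Q)
      refine h4.trans ?_
      apply Finset.sum_le_sum
      intro D _
      apply mul_le_mul_of_nonneg_left
      · unfold yT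
        split_ifs
        · exact le_rfl
        · simpa using sq_nonneg (yy h D)
      · apply Finset.prod_nonneg
        intro i _
        cases D i with
        | none =>
          simp only [bet]
          have := hg0 i k
          positivity
        | some l =>
          simp only [bet]
          have := hg0 i l
          split_ifs
          · positivity
          · exact this
    refine h3'.trans ?_
    apply mul_le_mul_of_nonneg_right _ hZ0
    apply Real.exp_le_exp.mpr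
    have := hG k
    nlinarith
  have h5 : (0:ℝ) ≤ (1 / t) ^ J := by positivity
  have h6 := mul_le_mul_of_nonneg_left h3 h5
  linarith

end

end QJx

open QJx in
theorem core {α : Type} [DecidableEq α] (𝒜 : Finset α) (col : α → Col n κ)
    {p : Fin n → ℝ} {g : Fin n → κ → ℝ} {h : κ → Finset (Fin n) → ℝ} {z : ℝ} {K : κ → ℝ}
    (H : ∀ k, Hyp p (fun i => g i k) (h k) z (K k))
    (Q δ t N Err G : ℝ) (J : ℕ) (hJ : Even J) (ht : 0 < t) (hN : 0 < N) (hErr : 0 ≤ Err)
    (hQz : 1 ≤ Q) (hz1 : 1 < z) (hp1 : ∀ i, 1 ≤ p i) (hg0 : ∀ i k, 0 ≤ g i k)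
    (hpz : ∀ i, p i ≤ z) (hg1 : ∀ i k, g i k ≤ 1) (htg : ∀ i k, 3 * t * g i k ≤ 1)
    (hug : ∀ i, ∑ k, g i k ≤ 1) (hG0 : 0 ≤ G) (hG : ∀ k, ∑ i, g i k ≤ G)
    (hδ : ∀ D : Col n κ, qq p D ≤ Q → ∀ k, 2 * ∑ i with D i ≠ none, g i k ≤ δ)
    (hug4 : (Fintype.card κ : ℝ) * δ ≤ 1 / 4)
    (hs : 2 * (Fintype.card κ : ℝ) * ∑ i, 1 / (p i) ^ 2 ≤ 1)
    (htail : (Fintype.card κ + 1 : ℝ) * (δ ^ 2 + Real.exp (2 * (∑ k, K k) / Real.log z
      - Real.log (Q / z) / Real.log z)) ≤ 1 / 8)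
    (hmom : (Fintype.card κ : ℝ) * (1 / t) ^ J * Real.exp ((2 + 6 * t) * G) ≤ 1 / 8)
    (hcnt : ∀ D : Col n κ, qq p D ≤ Q ^ 2 * z ^ J →
      |((𝒜.filter (fun a => ∀ i, D i ≠ none → col a i = D i)).card : ℝ) - N * nu g D| ≤ Err)
    (hfin : Err * (9 * Q ^ 4 * (1 + Fintype.card κ * (n + 1) ^ J)) < N / 8) :
    ∃ a ∈ 𝒜, ∀ k, ∃ i, col a i = some k := by
  set u : ℝ := (Fintype.card κ : ℝ) with hu
  have hu0 : 0 ≤ u := Nat.cast_nonneg _
  have hQ0 : 0 < Q := by linarith
  have hz0 : 0 < z := by linarith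
  set E : ℝ := Real.exp (2 * (∑ k, K k) / Real.log z - Real.log (Q / z) / Real.log z) with hE
  set Z : ℝ := Zs g h with hZ
  have hZ1 : 1 ≤ Z := Zs_ge_one hg0
  have hE0 : 0 < E := Real.exp_pos _
  have hT : ∑ D : Col n κ with Q / z < qq p D, (yy h D) ^ 2 * nu g D ≤ E * Z :=
    tail_bound H hz1 (Q / z) (by positivity)
  have hE8 : E ≤ 1 / 8 := by
    have : δ ^ 2 + E ≤ (u + 1) * (δ ^ 2 + E) := by nlinarith [sq_nonneg δ]
    nlinarith [sq_nonneg δ]
  have hT8 : E * Z ≤ 1 / 8 * Z := by nlinarith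
  set V : Col n κ → ℝ := VV g (yT p h Q) with hV
  have hlow : 3 / 4 * Z ≤ EE g (fun x => (V x) ^ 2) :=
    second_lower Q δ (E * Z) hg0 hz1 hug hδ hug4 hQ0 hT hT8
  have hup : ∀ k, EE g (fun x => (V x) ^ 2 * SS J k x) ≤
      δ ^ 2 * Z + E * Z + (1 / t) ^ J * (Real.exp ((2 + 6 * t) * G) * Z) := fun k =>
    second_upper H Q δ t (E * Z) G J hJ ht htg hg0 hG hug hQ0 hδ hT k
  set F : Col n κ → ℝ := fun x => V x ^ 2 * (1 - ∑ k, SS J k x) with hF
  have hEF : Z / 2 ≤ EE g F := by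
    have e1 : EE g F = EE g (fun x => (V x) ^ 2) - ∑ k, EE g (fun x => (V x) ^ 2 * SS J k x) := by
      rw [← EE_sum, ← EE_sub]
      congr 1
      funext x
      rw [hF]
      simp only
      rw [← Finset.mul_sum]
      ring
    rw [e1]
    have e2 : ∑ k : κ, EE g (fun x => (V x) ^ 2 * SS J k x) ≤
        u * (δ ^ 2 * Z + E * Z + (1 / t) ^ J * (Real.exp ((2 + 6 * t) * G) * Z)) := by
      refine (Finset.sum_le_sum (fun k _ => hup k)).trans ?_
      rw [Finset.sum_const, Finset.card_univ, nsmul_eq_mul]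
    have e3 : u * (δ ^ 2 * Z + E * Z) ≤ 1 / 8 * Z := by
      have : u * (δ ^ 2 + E) ≤ 1 / 8 := by nlinarith [sq_nonneg δ]
      nlinarith
    have e4 : u * ((1 / t) ^ J * (Real.exp ((2 + 6 * t) * G) * Z)) ≤ 1 / 8 * Z := by
      nlinarith
    nlinarith
  -- level of `F`
  have hzJ : (1:ℝ) ≤ z ^ J := one_le_pow₀ hz1.le
  have hVL : Lv p Q (3 * Q ^ 2) V := by
    refine Lv_mono le_rfl (count_assign (κ := κ) p hp1 hs Q hQ0) ?_
    refine Lv_VV p g hp1 hg0 hg1 (yT p h Q) ?_ Q ?_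
    · intro D
      unfold yT
      split_ifs
      · exact yy_abs_le (fun k => (H k).h0) (fun k => (H k).h1) D
      · simp
    · intro D hD
      by_contra hc
      exact hD (by unfold yT; rw [if_neg hc])
  have hSL : Lv p (z ^ J) (1 + u * (n + 1) ^ J) (fun x : Col n κ => 1 - ∑ k, SS J k x) := by
    have e1 : Lv p (z ^ J) 1 (fun _ : Col n κ => (1:ℝ)) :=
      Lv_mono hzJ (by simp) (Lv_const p 1)
    have e2 := Lv_sum (p := p) (Q := z ^ J) (univ : Finset κ) (fun _ => ((n:ℝ) + 1) ^ J)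
      (fun k => (SS J k : Col n κ → ℝ)) (fun k _ => Lv_SS p hp1 z hpz hz1.le J k)
    have e3 := Lv_sub e1 e2
    refine Lv_mono le_rfl ?_ e3
    rw [Finset.sum_const, Finset.card_univ, nsmul_eq_mul]
  have hFL : Lv p (Q ^ 2 * z ^ J) (9 * Q ^ 4 * (1 + u * (n + 1) ^ J)) F := by
    have e1 := Lv_mul hp1 (Lv_mul hp1 hVL hVL) hSL
    have e2 : F = fun x => V x * V x * (1 - ∑ k, SS J k x) := by
      rw [hF]; funext x; ring
    rw [e2]
    refine Lv_mono (le_of_eq (by ring)) (le_of_eq (by ring)) e1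
  have htr := transfer 𝒜 col p g N Err _ _ hErr hcnt F hFL
  have hpos : 0 < ∑ a ∈ 𝒜, F (col a) := by
    have e1 := (abs_le.mp htr).1
    have e2 : N / 2 ≤ N * EE g F := by nlinarith
    linarith
  obtain ⟨a, ha, hFa⟩ : ∃ a ∈ 𝒜, 0 < F (col a) := by
    by_contra hc
    push Not at hc
    exact absurd (Finset.sum_nonpos hc) (not_le.mpr hpos)
  refine ⟨a, ha, fun k => ?_⟩
  by_contra hk
  push Not at hk
  have hV0 : 0 ≤ V (col a) ^ 2 := sq_nonneg _
  have h1 : 0 < 1 - ∑ k, SS J k (col a) := by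
    by_contra hc
    push Not at hc
    have : F (col a) ≤ 0 := mul_nonpos_of_nonneg_of_nonpos hV0 hc
    linarith
  have hSS0 : ∀ l, 0 ≤ SS J l (col a) := by
    intro l
    refine le_trans ?_ (SS_lower J hJ l (col a))
    split_ifs <;> norm_num
  have h2 : SS J k (col a) ≤ ∑ l, SS J l (col a) :=
    Finset.single_le_sum (fun l _ => hSS0 l) (Finset.mem_univ k)
  have h3 := SS_lower J hJ k (col a)
  rw [if_pos hk] at h3
  linarith

end Pool.Agent.H378R2.QG
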